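import Pool.Agent.H71.FX.Targets

/-!
# Prefix vocabulary classes, row CO: right and up commute
-/

set_option autoImplicit false

namespace Pool.Agent.H74.FX

open Pool.Agent.H71.FX Pool.Agent.H71.PF Pool.Agent.H8.PL

section

variable {α Q : Type} {m : Rc α Q}

theorem co_one (it : T_IT) (hm : m.Ru) (x : α) (hx : ¬ m.tp x) (i : ℕ) :
    (∀ a < i, ¬ m.rt (m.r^[a] x)) →
      m.r^[i] (m.u x) = m.u (m.r^[i] x) ∧ ∀ a < i, ¬ m.rt (m.r^[a] (m.u x)) := by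
  induction i with
  | zero =>
    intro _
    exact ⟨rfl, fun a ha => absurd ha (Nat.not_lt_zero a)⟩
  | succ i ih =>
    intro h
    obtain ⟨h1, h2⟩ := ih fun a ha => h a (Nat.lt_succ_of_lt ha)
    have h3 : ¬ m.rt (m.r^[i] x) := h i (Nat.lt_succ_self i)
    have h4 : ¬ m.tp (m.r^[i] x) := fun h' =>
      hx (((it α Q m hm x i fun a ha => h a (Nat.lt_succ_of_lt ha)).2.2.1).1 h')
    have h5 := (hm (m.r^[i] x)).1
    constructor
    · rw [Function.iterate_succ_apply', Function.iterate_succ_apply', h1]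
      exact h5.2.2.2.2 h3 h4
    · intro a ha
      rcases Nat.lt_succ_iff_lt_or_eq.1 ha with ha | rfl
      · exact h2 a ha
      · rw [h1]
        exact fun h' => h3 ((h5.2.2.1 h4).2.2.2.1 h')

theorem co_all (it : T_IT) (hm : m.Ru) (x : α) (i : ℕ) (hx : ∀ a < i, ¬ m.rt (m.r^[a] x))
    (j : ℕ) : (∀ b < j, ¬ m.tp (m.u^[b] x)) →
      m.r^[i] (m.u^[j] x) = m.u^[j] (m.r^[i] x) ∧ ∀ a < i, ¬ m.rt (m.r^[a] (m.u^[j] x)) := by
  induction j with
  | zero => exact fun _ => ⟨rfl, hx⟩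
  | succ j ih =>
    intro h
    obtain ⟨h1, h2⟩ := ih fun b hb => h b (Nat.lt_succ_of_lt hb)
    obtain ⟨h3, h4⟩ := co_one it hm (m.u^[j] x) (h j (Nat.lt_succ_self j)) i h2
    rw [Function.iterate_succ_apply', Function.iterate_succ_apply', h3, h1]
    exact ⟨rfl, h4⟩

end

theorem pf_CO (it : T_IT) (tr : T_TR) : T_CO := by
  intro α Q m hm x i j hi hj
  obtain ⟨h1, h2⟩ := co_all it hm x i hi j hj
  have h3 : ∀ b < j, ¬ m.tp (m.u^[b] (m.r^[i] x)) := by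
    intro b hb
    obtain ⟨h4, h5⟩ := co_all it hm x i hi b fun b' hb' => hj b' (hb'.trans hb)
    rw [← h4]
    exact fun h' => hj b hb (((it α Q m hm _ i h5).2.2.1).1 h')
  have h6 := it α Q m hm (m.u^[j] x) i h2
  have h7 : m.d^[j] (m.u^[j] (m.r^[i] x)) = m.r^[i] x ∧
      (m.lf (m.u^[j] (m.r^[i] x)) ↔ m.lf (m.r^[i] x)) ∧
      (m.rt (m.u^[j] (m.r^[i] x)) ↔ m.rt (m.r^[i] x)) ∧
      (0 < j → ¬ m.bt (m.u^[j] (m.r^[i] x))) := it α Q m.tr (tr α Q m hm) (m.r^[i] x) j h3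
  refine ⟨h1, h2, h3, ?_, ?_, ?_, ?_⟩
  · rw [h1]
    exact h7.2.2.1
  · rw [← h1]
    exact h6.2.2.1
  · rw [h1]
    exact h7.2.1
  · rw [← h1]
    exact h6.2.1

end Pool.Agent.H74.FX
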